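import Mathlib
import Pool.Agent.H447R2.ML.Spec
import Pool.Agent.N176.GW.All

set_option autoImplicit false

/-!
# Primes in the real solutions of the Fibonacci recurrence: windows of any length

The real solutions of `T (n + 2) = T (n + 1) + T n` are the sequences
`T β B n = β φ ^ n + B ψ ^ n` with `φ = (1 + √5) / 2`, `ψ = (1 - √5) / 2`; the Fibonacci numbers are
the solution with `β = 1 / √5`, `B = -1 / √5`, the Lucas numbers the one with `β = B = 1`.  For a
prime `p` let `W β B p` be the `p`-rough part (the product, with multiplicity, of the prime factors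
larger than `p`) of `⌊T β B p⌋`.  For the Fibonacci and the Lucas numbers this is the number with the
index `p` itself, for all primes `p > 5`.

According to the Poisson model behind the conjecture the exponents `p` with `W β B p` prime form, on
the scale `log p`, a Poisson process of intensity `κ = e ^ γ / log φ`, for a general `β`.  For such a
process the number of points in `(log n, log n']` differs from its mean `κ * log (n' / n)` by
`O (sqrt (log (n' / n) log log n') + log log n')`, for all windows at once, and for the windows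
starting at the origin by `O (sqrt (log n log log log n))` (law of the iterated logarithm).  We prove
these bounds for almost every `β > 0` and all real `B` at once, for all windows `(n, n']` at once, of
whatever length, and for the whole counting function; and the same for the exponents in an arbitrary
set `S` of primes of infinite weight `∑ log p / p`.

The main new point against integer bases (`MP_adea1b_nt/WindowsInEveryBase.lean`) is the bound, with
the right power of the number of exponents, for the number of integers `N` for which the integers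
computed from `N` are almost prime for `k` given exponents: `F (h + 1) N + F h ⌊N / φ⌋` takes the
place of `2 ^ h N`, and `⌊N / φ⌋` is linear in `N` along steps of length `F m`, up to few exceptions.

Authors: helper176 (plan, exponential moments, dyadic blocks, windows, law of the iterated logarithm,
assembly), helper402 (linearity along Fibonacci steps), helper832 (sieve for linear forms), helper581
(sieve for a set of exponents), helper707 (exponents given the first digits), helper170 (smooth
parts), helper966 (exponential moments from the sieve), helper116 (second moment), helper603 (means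
over cells), helper222 (counting and integrals), helper738 (good cells), helper255 (maximal
inequality), helper564 (agreement of levels), and the authors of the case of the base two (helpers
455, 490, 645, 618, 644, 75, 136, 123, 545, 697, 615, 348, 221).
-/

namespace Pool.Agent.Results.MP_5893d7_nt.GoldenWindows

open Filter Topology MeasureTheory

/-- The Lucas numbers. -/
def L : ℕ → ℕ
  | 0 => 2
  | 1 => 1
  | (n + 2) => L (n + 1) + L n

/-- The golden ratio. -/
noncomputable def φ : ℝ := (1 + Real.sqrt 5) / 2

/-- The conjugate of the golden ratio. -/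
noncomputable def ψ : ℝ := (1 - Real.sqrt 5) / 2

/-- The real solutions of the Fibonacci recurrence. -/
noncomputable def T (β B : ℝ) (n : ℕ) : ℝ := β * φ ^ n + B * ψ ^ n

/-- The product, with multiplicity, of the prime factors of `m` that are larger than `p`. -/
def roughPart (p m : ℕ) : ℕ := (m.primeFactorsList.filter (fun r => p < r)).prod

/-- The `p`-rough part of `⌊T β B p⌋`. -/
noncomputable def W (β B : ℝ) (p : ℕ) : ℕ := roughPart p ⌊T β B p⌋₊

open Classical in
/-- The number of primes `p ≤ n` in the set `S` for which `W β B p` is prime. -/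
noncomputable def M (S : Set ℕ) (β B : ℝ) (n : ℕ) : ℕ :=
  ((Finset.range (n + 1)).filter (fun p => p.Prime ∧ p ∈ S ∧ (W β B p).Prime)).card

open Classical in
/-- The sum of `log p / p` over the primes `p ≤ n` in the set `S`. -/
noncomputable def V (S : Set ℕ) (n : ℕ) : ℝ :=
  ∑ p ∈ (Finset.range (n + 1)).filter (fun p => p.Prime ∧ p ∈ S), Real.log p / p

/-- The constant of the law, `e ^ γ / log φ`. -/
noncomputable def κ : ℝ := Real.exp Real.eulerMascheroniConstant / Real.log φ

lemma sqrt5_sq : Real.sqrt 5 ^ 2 = 5 := Real.sq_sqrt (by norm_num)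

lemma sqrt5_pos : 0 < Real.sqrt 5 := Real.sqrt_pos.2 (by norm_num)

lemma one_lt_phi : 1 < φ := by
  unfold φ
  nlinarith [sqrt5_sq, sqrt5_pos]

lemma phi_add : φ + ψ = ((1 : ℤ) : ℝ) := by unfold φ ψ; push_cast; ring

lemma phi_mul : φ * ψ = -1 := by unfold φ ψ; nlinarith [sqrt5_sq]

lemma phi_sq : φ ^ 2 = φ + 1 := by unfold φ; nlinarith [sqrt5_sq]

lemma psi_sq : ψ ^ 2 = ψ + 1 := by unfold ψ; nlinarith [sqrt5_sq]

lemma T_rec (β B : ℝ) (n : ℕ) : T β B (n + 2) = T β B (n + 1) + T β B n := by
  unfold T
  rw [pow_add φ n 2, pow_add ψ n 2, phi_sq, psi_sq]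
  ring

lemma T_zero (β B : ℝ) : T β B 0 = β + B := by unfold T; ring

lemma T_one (β B : ℝ) : T β B 1 = β * φ + B * ψ := by unfold T; ring

/-- the Fibonacci numbers -/
lemma T_fib (n : ℕ) : T (1 / Real.sqrt 5) (-(1 / Real.sqrt 5)) n = (Nat.fib n : ℝ) := by
  induction n using Nat.twoStepInduction with
  | zero => rw [T_zero]; simp
  | one =>
    rw [T_one]
    have := sqrt5_pos.ne'
    unfold φ ψ
    rw [Nat.fib_one]
    field_simp
    push_cast
    ring
  | more n h1 h2 =>
    rw [T_rec, h1, h2, Nat.fib_add_two]
    push_cast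
    ring

/-- the Lucas numbers -/
lemma T_luc (n : ℕ) : T 1 1 n = (L n : ℝ) := by
  induction n using Nat.twoStepInduction with
  | zero => rw [T_zero]; norm_num [L]
  | one =>
    rw [T_one, one_mul, one_mul, phi_add]
    norm_num [L]
  | more n h1 h2 =>
    rw [T_rec, h1, h2]
    show _ = ((L (n + 1) + L n : ℕ) : ℝ)
    push_cast
    ring

lemma fib_eq (n : ℕ) : Pool.Agent.H447R2.ML.U 1 n = Nat.fib n := by
  induction n using Nat.twoStepInduction with
  | zero => rfl
  | one => rfl
  | more n h1 h2 =>
    rw [Pool.Agent.H447R2.ML.U_add_two, h1, h2, Nat.fib_add_two]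
    ring

lemma luc_eq (n : ℕ) : Pool.Agent.H447R2.ML.V 1 n = L n := by
  induction n using Nat.twoStepInduction with
  | zero => rfl
  | one => rfl
  | more n h1 h2 =>
    show _ = L (n + 1) + L n
    rw [Pool.Agent.H447R2.ML.V_add_two, h1, h2]
    ring

/-- The Fibonacci numbers. -/
lemma W_fib {p : ℕ} (hp : p.Prime) (h5 : 5 < p) :
    W (1 / Real.sqrt 5) (-(1 / Real.sqrt 5)) p = Nat.fib p := by
  have hd : ¬ p ∣ 1 ^ 2 + 4 := by
    intro h
    have := Nat.le_of_dvd (by norm_num) h
    omega
  have h := Pool.Agent.H447R2.ML.rough_U 1 one_pos hp (by omega) hd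
    (x := T (1 / Real.sqrt 5) (-(1 / Real.sqrt 5)) p) (by rw [T_fib, fib_eq])
  rw [fib_eq] at h
  exact h

/-- The Lucas numbers. -/
lemma W_luc {p : ℕ} (hp : p.Prime) (h5 : 5 < p) : W 1 1 p = L p := by
  have hd : ¬ p ∣ 1 := fun h => hp.one_lt.ne' (Nat.dvd_one.1 h)
  have h : Pool.Agent.H305R2.roughPart p ⌊T 1 1 p⌋₊ = L p := by
    rw [T_luc, Nat.floor_natCast]
    refine Pool.Agent.H447R2.ML.roughPart_eq_self ?_ fun q hq h => ?_
    · rw [← luc_eq]
      exact (Pool.Agent.H447R2.ML.V_pos 1 p one_pos).ne'
    · rw [← luc_eq] at h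
      exact Pool.Agent.H447R2.ML.lt_of_dvd_V 1 hp (by omega) hd hq
        (fun h' => hq.one_lt.ne' (Nat.dvd_one.1 h')) h
  exact h

/-- The special values; the window law and the law of the iterated logarithm for all solutions of the
Fibonacci recurrence with the leading coefficient `β` at once; the same for the exponents in an
arbitrary set of primes of infinite weight. -/
theorem result :
    (∀ n : ℕ, T (1 / Real.sqrt 5) (-(1 / Real.sqrt 5)) n = Nat.fib n ∧ T 1 1 n = L n) ∧
    (∀ p : ℕ, p.Prime → 5 < p →
      W (1 / Real.sqrt 5) (-(1 / Real.sqrt 5)) p = Nat.fib p ∧ W 1 1 p = L p) ∧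
    (∃ C : ℝ, ∀ᵐ β : ℝ, 0 < β → ∀ B : ℝ,
      (∀ᶠ n : ℕ in atTop, ∀ n' ≥ n,
        |((M Set.univ β B n' : ℝ) - M Set.univ β B n) - κ * Real.log ((n' : ℝ) / n)| ≤
          C * (√(Real.log ((n' : ℝ) / n) * Real.log (Real.log n')) + Real.log (Real.log n'))) ∧
      (∀ᶠ n : ℕ in atTop, |(M Set.univ β B n : ℝ) - κ * Real.log n| ≤
        C * √(Real.log n * Real.log (Real.log (Real.log n))))) ∧
    (∃ C : ℝ, ∀ S : Set ℕ, Tendsto (fun n => V S n) atTop atTop → ∀ᵐ β : ℝ, 0 < β → ∀ B : ℝ,
      (∀ᶠ n : ℕ in atTop, ∀ n' ≥ n,
        |((M S β B n' : ℝ) - M S β B n) - κ * (V S n' - V S n)| ≤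
          C * (√((V S n' - V S n) * Real.log (V S n')) + Real.log (V S n'))) ∧
      (∀ᶠ n : ℕ in atTop, |(M S β B n : ℝ) - κ * V S n| ≤
        C * √(V S n * Real.log (Real.log (V S n))))) := by
  have eM : ∀ S β B n, Pool.Agent.N176.GW.MB Real.goldenRatio (fun p => B * ψ ^ p) S β n =
      M S β B n := by
    intro S β B n
    unfold Pool.Agent.N176.GW.MB M W T φ
    rfl
  have eV : ∀ S n, Pool.Agent.N176.OW.VS S n = V S n := fun S n => rfl
  have ek : Pool.Agent.N176.GW.kr Real.goldenRatio = κ := rfl
  have hψ : |ψ| < 1 := by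
    have h1 := sqrt5_sq
    have h2 := sqrt5_pos
    unfold ψ
    rw [abs_lt]
    constructor <;> nlinarith
  refine ⟨fun n => ⟨T_fib n, T_luc n⟩, fun p hp h5 => ⟨W_fib hp h5, W_luc hp h5⟩, ?_, ?_⟩
  · have h := Pool.Agent.N176.GW.fin_univ Real.one_lt_goldenRatio Pool.Agent.N176.GW.All.win'
      Pool.Agent.N176.GW.All.lil' hψ
    simp only [eM, ek] at h
    exact h
  · have h := Pool.Agent.N176.GW.fin_set Real.one_lt_goldenRatio Pool.Agent.N176.GW.All.win'
      Pool.Agent.N176.GW.All.lil' hψ
    simp only [eM, ek, eV] at h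
    exact h

end Pool.Agent.Results.MP_5893d7_nt.GoldenWindows
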