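import Mathlib
import Pool.Agent.N740.HK.Trials
import Pool.Agent.N740.HK.Sch
import Pool.Agent.N740.HK.Tgt
import Pool.Agent.N740.HK.Shk
import Pool.Agent.N957.SQ.Exp3

/-!
# Fibonacci and Lucas numbers in all sequential random models of the primes

The integers are decided one after the other and the conditional probability of choosing `n + 1`,
given the decisions up to `n`, is asymptotic to `1 / log n`, almost surely.  Nothing else is assumed:
no independence and no rate of convergence.  The independent model of Cramér and the random sieve of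
Hawkins are examples.

In every such model, almost surely, for all sequences `u (n + 2) = P u (n + 1) + Q u n` with natural
`P, Q ≥ 1` and natural initial values, not both `0`, at once (Fibonacci and Lucas numbers: `P = Q = 1`),
the indices `n` for which `u n` is chosen are infinitely many, `~ log x / log α` of them are at most `x`,
`~ log log x / log α` of them are at most `x` and chosen themselves, and the largest quotients of
consecutive ones are `(log n) ^ (log α + o(1))`.
-/

set_option autoImplicit false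

open MeasureTheory Filter Set ProbabilityTheory
open scoped Topology

namespace Pool.Agent.Results.MP_5893d7_nt.SequentialModels

variable {Ω : Type}

/-- `A n` is the event that `n` is chosen.  The events are adapted to the filtration `ℱ` and the
conditional probability of `A (n + 1)` given `ℱ n`, times `log n`, tends to `1` almost surely. -/
def SequentialModel [m : MeasurableSpace Ω] (μ : Measure Ω) (ℱ : Filtration ℕ m) (A : ℕ → Set Ω) : Prop :=
  (∀ n, MeasurableSet[ℱ n] (A n)) ∧
  ∀ᵐ ω ∂μ, Tendsto (fun n : ℕ => (μ[(A (n + 1)).indicator (fun _ => (1 : ℝ)) | ℱ n]) ω * Real.log n) atTop (𝓝 1)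

/-- The model of Cramér: independent events, `n` is chosen with probability `1 / log n` for `n ≥ 3`. -/
def CramerModel [MeasurableSpace Ω] (μ : Measure Ω) (A : ℕ → Set Ω) : Prop :=
  (∀ n, MeasurableSet (A n)) ∧ iIndepSet A μ ∧ ∀ n : ℕ, 3 ≤ n → μ (A n) = ENNReal.ofReal (1 / Real.log n)

open Classical in
/-- The random sieve of Hawkins: `2` is chosen, and given the decisions up to `n ≥ 2` the number
`n + 1` is chosen with probability `∏ (1 - 1 / h)`, the product over the chosen `2 ≤ h ≤ n`. -/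
def HawkinsSieve [m : MeasurableSpace Ω] (μ : Measure Ω) (ℱ : Filtration ℕ m) (A : ℕ → Set Ω) : Prop :=
  (∀ n, MeasurableSet[ℱ n] (A n)) ∧ A 2 = univ ∧
  ∀ n, 2 ≤ n → μ[(A (n + 1)).indicator (fun _ => (1 : ℝ)) | ℱ n] =ᵐ[μ]
    fun ω => ∏ h ∈ Finset.Icc 2 n, if ω ∈ A h then 1 - 1 / (h : ℝ) else 1

/-- The members of `S` in increasing order: `nth S 0 < nth S 1 < ...`. -/
noncomputable def nth (S : Set ℕ) (n : ℕ) : ℕ := Nat.nth (· ∈ S) n

/-- The positive root of `x ^ 2 = P x + Q`. -/
noncomputable def root (P Q : ℕ) : ℝ := ((P : ℝ) + Real.sqrt ((P : ℝ) ^ 2 + 4 * Q)) / 2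

open Pool.Agent.N740.HK Pool.Agent.R528.RM

lemma prod_inv (A : ℕ → Set Ω) (n : ℕ) (ω : Ω) [DecidablePred fun h => ω ∈ A h] :
    (∏ h ∈ Finset.Icc 2 n, if ω ∈ A h then 1 - 1 / (h : ℝ) else 1) = (Y A n ω)⁻¹ := by
  unfold Y
  rw [← Finset.prod_inv_distrib]
  refine Finset.prod_congr rfl fun h hh => ?_
  have h2 : (2 : ℝ) ≤ h := by exact_mod_cast (Finset.mem_Icc.1 hh).1
  by_cases hA : ω ∈ A h
  · rw [if_pos hA, if_pos hA, inv_div]
    field_simp
  · rw [if_neg hA, if_neg hA, inv_one]

lemma log_ratio : Tendsto (fun n : ℕ => (Real.log ((n + 1 : ℕ) : ℝ))⁻¹ * Real.log n) atTop (𝓝 1) := by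
  have h1 : Tendsto (fun n : ℕ => Real.log ((n : ℝ) + 1) - Real.log n) atTop (𝓝 0) := by
    have h1 : Tendsto (fun n : ℕ => 1 + (1 : ℝ) / n) atTop (𝓝 (1 + 0)) :=
      tendsto_const_nhds.add tendsto_one_div_atTop_nhds_zero_nat
    rw [add_zero] at h1
    have h2 := (Real.continuousAt_log (one_ne_zero)).tendsto.comp h1
    rw [Real.log_one] at h2
    refine h2.congr' ?_
    filter_upwards [eventually_gt_atTop 0] with n hn
    have hn' : (0 : ℝ) < n := by exact_mod_cast hn
    show Real.log (1 + 1 / (n : ℝ)) = _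
    rw [← Real.log_div (by positivity) hn'.ne']
    congr 1
    field_simp
  have h2 : Tendsto (fun n : ℕ => Real.log ((n : ℝ) + 1)) atTop atTop :=
    Real.tendsto_log_atTop.comp (tendsto_atTop_add_const_right _ _ tendsto_natCast_atTop_atTop)
  have h3 := h1.div_atTop h2
  have h4 : Tendsto (fun n : ℕ => 1 - (Real.log ((n : ℝ) + 1) - Real.log n) / Real.log ((n : ℝ) + 1)) atTop (𝓝 (1 - 0)) :=
    tendsto_const_nhds.sub h3
  rw [sub_zero] at h4
  refine h4.congr' ?_
  filter_upwards [h2.eventually_gt_atTop 0] with n hn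
  push_cast
  field_simp
  ring

end Pool.Agent.Results.MP_5893d7_nt.SequentialModels

open Pool.Agent.Results.MP_5893d7_nt.SequentialModels Pool.Agent.N740.HK Pool.Agent.R528.RM

/-- The random sieve of Hawkins is a sequential model, the model of Cramér is one for some filtration.
In every sequential model, almost surely, for all sequences `u (n + 2) = P u (n + 1) + Q u n` with
natural `P, Q ≥ 1` and natural initial values, not both `0`, at once, with `L = log α`, where `α` is the
positive root of `x ^ 2 = P x + Q`: infinitely many `u n` are chosen; the number of `n ≤ x` for which `u n`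
is chosen is asymptotic to `log x / L`; the number of `n ≤ x` for which both `n` and `u n` are chosen is
asymptotic to `log log x / L`; and with `n_0 < n_1 < ...` the `n` for which `u n` is chosen,
`n_(j+1) ≤ n_j (log n_j) ^ s` for all large `j` if `s > L`, and `n_(j+1) > n_j (log n_j) ^ s` for
infinitely many `j` if `s < L`. -/
theorem Pool.Agent.Results.MP_5893d7_nt.SequentialModels.result
    {Ω : Type} [m : MeasurableSpace Ω] (μ : Measure Ω) [IsProbabilityMeasure μ] (A : ℕ → Set Ω) :
    (CramerModel μ A → ∃ ℱ : Filtration ℕ m, SequentialModel μ ℱ A) ∧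
    ∀ ℱ : Filtration ℕ m,
    (HawkinsSieve μ ℱ A → SequentialModel μ ℱ A) ∧
    (SequentialModel μ ℱ A →
      ∀ᵐ ω ∂μ, ∀ (P Q : ℕ) (u : ℕ → ℕ), 1 ≤ P → 1 ≤ Q →
        (∀ n, u (n + 2) = P * u (n + 1) + Q * u n) → (u 0 ≠ 0 ∨ u 1 ≠ 0) →
        {n | ω ∈ A (u n)}.Infinite ∧
        Tendsto (fun x : ℕ => ({n : ℕ | n ≤ x ∧ ω ∈ A (u n)}.ncard : ℝ) / Real.log x) atTop
          (𝓝 (1 / Real.log (root P Q))) ∧
        Tendsto (fun x : ℕ => ({n : ℕ | n ≤ x ∧ ω ∈ A n ∧ ω ∈ A (u n)}.ncard : ℝ) / Real.log (Real.log x)) atTop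
          (𝓝 (1 / Real.log (root P Q))) ∧
        (∀ s : ℝ, Real.log (root P Q) < s → ∀ᶠ j : ℕ in atTop, (nth {n | ω ∈ A (u n)} (j + 1) : ℝ) ≤
          nth {n | ω ∈ A (u n)} j * Real.log (nth {n | ω ∈ A (u n)} j) ^ s) ∧
        (∀ s : ℝ, s < Real.log (root P Q) → ∃ᶠ j : ℕ in atTop,
          (nth {n | ω ∈ A (u n)} j : ℝ) * Real.log (nth {n | ω ∈ A (u n)} j) ^ s <
            nth {n | ω ∈ A (u n)} (j + 1))) := by
  classical
  refine ⟨?_, fun ℱ => ⟨?_, ?_⟩⟩
  · rintro ⟨hA, hi, hp⟩
    refine ⟨gen hA, gen_meas hA, ?_⟩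
    have h1 : ∀ᵐ ω ∂μ, ∀ n, (μ[(A (n + 1)).indicator (fun _ => (1 : ℝ)) | gen hA n]) ω =
        (μ (A (n + 1))).toReal := ae_all_iff.2 fun n => dens_gen hA hi n
    filter_upwards [h1] with ω hω
    refine log_ratio.congr' ?_
    filter_upwards [eventually_ge_atTop 2] with n hn
    rw [hω, hp (n + 1) (by omega), ENNReal.toReal_ofReal, one_div]
    have : 0 ≤ Real.log ((n + 1 : ℕ) : ℝ) := Real.log_natCast_nonneg _
    positivity
  · rintro ⟨h1, h2, h3⟩
    have hs : Pool.Agent.N740.HK.HS μ ℱ A := ⟨h1, h2, fun n hn => by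
      filter_upwards [h3 n hn] with ω hω
      rw [← prod_inv]
      exact hω⟩
    exact ⟨h1, Pool.Agent.N740.HK.hawk_dens hs⟩
  · rintro ⟨hA, hd⟩
    filter_upwards [Pool.Agent.N957.SQ.rec_all (μ := μ) hA hd, Pool.Agent.N957.SQ.rec_both (μ := μ) hA hd]
      with ω h1 h2 P Q u hP hQ hu h0
    obtain ⟨g1, g2, g3, g4⟩ := h1 P Q u hP hQ hu h0
    exact ⟨g1, g2, h2 P Q u hP hQ hu h0, g3, g4⟩
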