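import Pool.Agent.N449.SQ.Final

/-!
# Fibonacci and Lucas numbers with prime index have no factorization into two sparse factors

Let `p` be a prime and let `F_p` or `L_p` be equal to `d e` with integers `|d|, |e| > 1`. Every integer is a sum of
Fibonacci numbers, and we show that `d` and `e` cannot both be sums of few Fibonacci numbers, or of few short blocks of
Fibonacci numbers: if `d = ∑_{i ∈ S} (u_i F_i + u'_i F_(i+1))`, `e = ∑_{j ∈ T} (v_j F_j + v'_j F_(j+1))` with
`|S| = s`, `|T| = t` and arbitrary integers `u_i, u'_i, v_j, v'_j` (such a term is an arbitrary combination of the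
Fibonacci numbers near `F_i`; Lucas numbers are included, `L_i = 2 F_(i+1) - F_i`), then
`φ ^ p ≤ (10 + 4 (∑ (|u_i| + 2 |u'_i|)) (∑ (|v_j| + 2 |v'_j|))) ^ ((8 t + 8) ^ (s + 1))`.
In particular, if both factors have at most `k` digits `1` in their Zeckendorf representations then
`φ ^ p ≤ (10 + 4 k ^ 2) ^ ((8 k + 8) ^ (k + 1))`, so for every `k` such a factorization exists for at most finitely many
primes `p`. The index has to be prime: `F_(2m) = F_m L_m = F_m (F_(m-1) + F_(m+1))`, `F_(3m) = F_m (L_(2m) ± 1)`.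

Proof (`Pool/Agent/N449/SQ`). The numbers are written in base `φ` in the ring `ℤ[φ]`. The comparison of the blocks of
digits of the two sides (a nonzero element of `ℤ[φ]` and its conjugate cannot both be small) at the scale given by
simultaneous approximation of the exponents by multiples of `p / q`, `q < p`, gives a factorization
`κ φ ^ p X ^ q + κ' φ ^ (-p) X ^ (-q) = D(X) E(X)` with Laurent polynomials which are antisymmetric under the
conjugation combined with `X → 1 / X`. If `D` has degree `m`, `0 < m < q`, then the absolute value of the ratio of its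
leading coefficient and the conjugate is `φ ^ (2 p m / q)`, which gives a proper root of `φ` in the field or an element of
norm `-1` which is equal to a ratio of conjugates.
-/

set_option autoImplicit false

namespace Pool.Agent.Results.MP_5893d7_nt.SparseFactors

open Pool.Agent.N449.SQ

theorem U_one (i : ℕ) : U 1 i = Nat.fib i := by
  induction i using Nat.strong_induction_on with
  | _ i ih =>
    match i with
    | 0 => simp [U]
    | 1 => simp [U]
    | i + 2 =>
      rw [U, ih (i + 1) (by omega), ih i (by omega), Nat.fib_add_two]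
      push_cast
      ring

theorem V_one (p : ℕ) (hp : 0 < p) : V 1 p = Nat.fib (p - 1) + Nat.fib (p + 1) := by
  obtain ⟨q, rfl⟩ := Nat.exists_eq_add_of_lt hp
  rw [V_eq, U_one, U_one]
  simp only [zero_add, Nat.add_sub_cancel]
  rw [show q + 1 + 1 = q + 2 from rfl, Nat.fib_add_two]
  push_cast
  ring

theorem eps_one : eps 1 = Real.goldenRatio := by
  unfold eps Real.goldenRatio
  norm_num

theorem main (p : ℕ) (hp : p.Prime) (d e : ℤ)
    (h : d * e = Nat.fib p ∨ d * e = Nat.fib (p - 1) + Nat.fib (p + 1)) (hd : 1 < |d|) (he : 1 < |e|)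
    (S T : Finset ℕ) (u u' v v' : ℕ → ℤ)
    (hS : d = ∑ i ∈ S, (u i * Nat.fib i + u' i * Nat.fib (i + 1)))
    (hT : e = ∑ j ∈ T, (v j * Nat.fib j + v' j * Nat.fib (j + 1))) :
    Real.goldenRatio ^ p ≤ ((10 + 4 * (∑ i ∈ S, (|u i| + 2 * |u' i|)) *
      (∑ j ∈ T, (|v j| + 2 * |v' j|)) : ℤ) : ℝ) ^ ((8 * (T.card + 1)) ^ (S.card + 1)) := by
  by_cases hp2 : p = 2
  · exfalso
    subst hp2
    have h1 : |d| * |e| ≤ 3 := by
      rw [← abs_mul]
      rcases h with h | h <;> rw [h] <;> norm_num [Nat.fib]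
    nlinarith
  have h1 := final (a := 1) le_rfl
    (fun T r hT hr _ h1 => by have := three_le_V T hT r hr; omega) p hp hp2 d e
    (by rw [U_one, V_one p hp.pos]; exact h)
    (fun hh => by
      have h2 := Int.isUnit_iff_abs_eq.1 (isUnit_of_dvd_one hh.2)
      omega)
    (fun hh => by
      have h2 := Int.isUnit_iff_abs_eq.1 (isUnit_of_dvd_one hh.2)
      omega)
    (by rintro rfl; simp at hd) S T u u' v v'
    (by rw [hS]; simp only [U_one]) (by rw [hT]; simp only [U_one])
  rw [eps_one] at h1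
  norm_num at h1 ⊢
  exact h1

theorem digits (k : ℕ) (d : ℕ) (hd : d.zeckendorf.length ≤ k) :
    ∃ S : Finset ℕ, S.card ≤ k ∧ (d : ℤ) = ∑ i ∈ S, ((1 : ℤ) * Nat.fib i + (0 : ℤ) * Nat.fib (i + 1)) := by
  refine ⟨d.zeckendorf.toFinset, (List.toFinset_card_le _).trans hd, ?_⟩
  have hnd : d.zeckendorf.Nodup := by
    have h1 := Nat.isZeckendorfRep_zeckendorf d
    have h2 : (d.zeckendorf ++ [0]).Pairwise (fun a b => b + 2 ≤ a) := by
      have : IsTrans ℕ (fun a b => b + 2 ≤ a) := ⟨fun a b c h1 h2 => by omega⟩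
      exact List.isChain_iff_pairwise.1 h1
    exact (List.pairwise_append.1 h2).1.imp (fun h => by omega)
  have h3 : ∑ i ∈ d.zeckendorf.toFinset, Nat.fib i = d := by
    rw [List.sum_toFinset _ hnd, Nat.sum_zeckendorf_fib]
  conv_lhs => rw [← h3]
  push_cast
  exact Finset.sum_congr rfl fun i _ => by ring

/-- **Sparse factors of Fibonacci and Lucas numbers.** -/
theorem result :
    -- arbitrary coefficients
    (∀ p : ℕ, p.Prime → ∀ d e : ℤ,
      (d * e = Nat.fib p ∨ d * e = Nat.fib (p - 1) + Nat.fib (p + 1)) → 1 < |d| → 1 < |e| →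
      ∀ (S T : Finset ℕ) (u u' v v' : ℕ → ℤ),
        d = ∑ i ∈ S, (u i * Nat.fib i + u' i * Nat.fib (i + 1)) →
        e = ∑ j ∈ T, (v j * Nat.fib j + v' j * Nat.fib (j + 1)) →
        Real.goldenRatio ^ p ≤ ((10 + 4 * (∑ i ∈ S, (|u i| + 2 * |u' i|)) *
          (∑ j ∈ T, (|v j| + 2 * |v' j|)) : ℤ) : ℝ) ^ ((8 * (T.card + 1)) ^ (S.card + 1))) ∧
    -- Zeckendorf digits
    ∀ k p d e : ℕ, p.Prime →
      (d * e = Nat.fib p ∨ d * e = Nat.fib (p - 1) + Nat.fib (p + 1)) → 1 < d → 1 < e →
      d.zeckendorf.length ≤ k → e.zeckendorf.length ≤ k →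
      Real.goldenRatio ^ p ≤ (10 + 4 * (k : ℝ) ^ 2) ^ ((8 * (k + 1)) ^ (k + 1)) := by
  refine ⟨fun p hp d e h hd he S T u u' v v' hS hT => main p hp d e h hd he S T u u' v v' hS hT, ?_⟩
  intro k p d e hp h hd he hdk hek
  obtain ⟨S, hSk, hS⟩ := digits k d hdk
  obtain ⟨T, hTk, hT⟩ := digits k e hek
  have h1 := main p hp d e (by exact_mod_cast h) (by rw [Nat.abs_cast]; exact_mod_cast hd)
    (by rw [Nat.abs_cast]; exact_mod_cast he) S T (fun _ => 1) (fun _ => 0) (fun _ => 1) (fun _ => 0)
    (by simpa using hS) (by simpa using hT)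
  simp only [abs_one, abs_zero, mul_zero, add_zero, Finset.sum_const, nsmul_eq_mul, mul_one] at h1
  push_cast at h1
  refine h1.trans ?_
  have hs : (S.card : ℝ) ≤ k := by exact_mod_cast hSk
  have ht : (T.card : ℝ) ≤ k := by exact_mod_cast hTk
  have h2 : (10 + 4 * (S.card : ℝ) * T.card) ≤ 10 + 4 * (k : ℝ) ^ 2 := by
    have := mul_le_mul hs ht (by positivity) (by positivity)
    nlinarith
  have h3 : (1 : ℝ) ≤ 10 + 4 * (k : ℝ) ^ 2 := by nlinarith [sq_nonneg (k : ℝ)]
  have h4 : (8 * (T.card + 1)) ^ (S.card + 1) ≤ (8 * (k + 1)) ^ (k + 1) :=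
    (Nat.pow_le_pow_left (by omega) _).trans (Nat.pow_le_pow_right (by omega) (by omega))
  exact (pow_le_pow_left₀ (by positivity) h2 _).trans (pow_le_pow_right₀ h3 h4)

end Pool.Agent.Results.MP_5893d7_nt.SparseFactors
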